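import Pool.Agent.T9h6.BF.Defs
import Pool.Agent.T9h6.BE.Rel

/-!
# Decidability of the relations
-/

set_option autoImplicit false

namespace Pool.Agent.T9h6.BF

open Pool.Agent.TH672 (Fm varStr num digits LogK)
open Pool.Agent.TH636.BC
open Pool.Agent.TH955.J1547 (p_var isF isF_primrec isF_iff gnLog gn_inj)
open Pool.Agent.TH554.J1548 (lsts mem_lsts lsts_primrec Chk chk_primrec isPf_iff sL sL_map sL_primrec
  exists_map length_le_strs length_le_num str_le_strs num_primrec prComp)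
open Pool.Agent.TH197.J1545 (code_inj num_inj str_pre digits_num str_ne_nil strs_cons strs_append
  digits_odd digits_even digits_zero num_snoc)
open Pool.Agent.T9h6.BC (st st_primrec st_gn Bd Bd_primrec Bd_mono gn_le vl vl_primrec vl_gn
  rep rep_eq rep_primrec rep_length tlx str_instx digits_primrec parse isProof_sub Num exists_num
  sz vlt_sz Vlt.mono)
open Pool.Agent.T9h6.BD (instD db str_instD app_comp fl mem_fl flat_fl num_digits le_num_append
  code_single SC sC_iff sl mem_sl of_mem_sl PrV prV_primrec)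
open Pool.Agent.T9h6.BE (rfJ rsJ str_rfJ rsJ_comp gsel flat_sl gsel_comp aS strs_sl' aS_primrec)

/-! ### strings of the reflection axioms -/

theorem refl_eq (W : Fml) (Γ : List Fml) (i : ℕ) (φ : Fml) :
    refl W Γ i φ = rfJ W (strs (φ :: W :: .eq i i :: Γ)) φ := rfl

/-- the string of the marker -/
def sE (i : ℕ) : List Bool := [false, false, false, true] ++ (varStr i ++ varStr i)

theorem str_eq (i : ℕ) : str (.eq i i) = sE i := by simp [str, sE]

theorem le_length_varStr (i : ℕ) : i ≤ (varStr i).length := by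
  have h : (varStr i).length = i + 1 := by simp [varStr]
  omega

theorem sE_primrec : Primrec sE := by
  unfold sE
  exact Primrec.list_append.comp (Primrec.const _) (Primrec.list_append.comp
    (Pool.Agent.T9h6.BC.p_vs Primrec.id) (Pool.Agent.T9h6.BC.p_vs Primrec.id))

theorem sE_comp {β : Type} [Primcodable β] {f : β → ℕ} (hf : Primrec f) :
    Primrec fun x => sE (f x) := sE_primrec.comp hf

attribute [irreducible] sE

theorem db_length (b : Bool) : 1 ≤ (db b).length := by cases b <;> simp [db]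

theorem flat_db_length (σ : List Bool) : σ.length ≤ (σ.flatMap db).length := by
  induction σ with
  | nil => exact Nat.zero_le _
  | cons b σ ih =>
    have := db_length b
    simp only [List.flatMap_cons, List.length_append, List.length_cons]
    omega

theorem length_rfJ (W : Fml) (σ : List Bool) (φ : Fml) : σ.length ≤ (str (rfJ W σ φ)).length := by
  have e1 := str_instD 2 σ W
  generalize hX : instD 2 σ W = X at e1
  have e2 : rfJ W σ φ = .imp (.ex 3 (.and Pool.Agent.T9h6.BE.J (.ex 4 (.and (.neg (.succ 4 4)) X))))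
      φ := by rw [rfJ, hX]
  have e3 := flat_db_length σ
  rw [e2]
  generalize Pool.Agent.T9h6.BE.J = J'
  have e4 : (str X).length = (hd ++ σ.flatMap db ++ tlx 2 ++ str W).length := by rw [e1]
  simp only [List.length_append] at e4
  simp only [Fm.ex, Fm.and, Fm.neg, str, List.length_append]
  omega

theorem lt_length_refl (W : Fml) (Γ : List Fml) (i : ℕ) (φ : Fml) :
    i < (str (refl W Γ i φ)).length ∧ (str φ).length ≤ (str (refl W Γ i φ)).length := by
  have h := length_rfJ W (strs (φ :: W :: .eq i i :: Γ)) φ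
  rw [← refl_eq] at h
  have h1 := le_length_varStr i
  have h2 : (strs (φ :: W :: .eq i i :: Γ)).length =
      (str φ).length + ((str W).length + ((str (Fm.eq i i : Fml)).length + (strs Γ).length)) := by
    simp [strs]
  have h3 : (str (Fm.eq i i : Fml)).length = 4 + ((varStr i).length + (varStr i).length) := by
    simp [str]; omega
  omega

/-! ### lists of axioms -/

variable {S F : Fml → Prop} {R : ℕ → ℕ → Prop}

/-- the string which is digitized in the reflection axiom -/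
def sg3 (s sW : List Bool) (j c : ℕ) : List Bool := s ++ (sW ++ (sE j ++ digits c))

theorem sg3_eq (φ W : Fml) (j : ℕ) (Γ : List Fml) :
    sg3 (str φ) (str W) j (code Γ) = strs (φ :: W :: .eq j j :: Γ) := by
  unfold sg3 code
  rw [digits_num, strs_cons, strs_cons, strs_cons, str_eq]

theorem sg3_comp {β : Type} [Primcodable β] {f g : β → List Bool} {h k : β → ℕ}
    (hf : Primrec f) (hg : Primrec g) (hh : Primrec h) (hk : Primrec k) :
    Primrec fun x => sg3 (f x) (g x) (h x) (k x) := by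
  unfold sg3
  exact app_comp hf (app_comp hg (app_comp (sE_comp hh) (digits_primrec.comp hk)))

attribute [irreducible] sg3

open Classical in
/-- the list of axioms of `T_i` -/
noncomputable def axl (S F : Fml → Prop) (R : ℕ → ℕ → Prop) (W : Fml) (c i K n : ℕ) : List Fml :=
  sl S n ++ (List.range K).flatMap fun j =>
    if R j i then (sl F n).map fun φ => rfJ W (sg3 (str φ) (str W) j c) φ else []

open Classical in
/-- the list or nothing -/
noncomputable def rsel (R : ℕ → ℕ → Prop) (j i : ℕ) (t : List Bool) : List Bool :=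
  if R j i then t else []

theorem rsel_primrec (hR : PrimrecRel R) :
    Primrec fun p : (ℕ × ℕ) × List Bool => rsel R p.1.1 p.1.2 p.2 := by
  have h1 : PrimrecPred fun p : (ℕ × ℕ) × List Bool => R p.1.1 p.1.2 :=
    hR.comp (Primrec.fst.comp Primrec.fst) (Primrec.snd.comp Primrec.fst)
  obtain ⟨hd, hp⟩ := h1
  have h2 : Primrec fun p : (ℕ × ℕ) × List Bool => cond (decide (R p.1.1 p.1.2)) p.2 [] :=
    Primrec.cond hp Primrec.snd (Primrec.const [])
  refine h2.of_eq fun p => ?_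
  unfold rsel
  by_cases h : R p.1.1 p.1.2
  · rw [if_pos h, decide_eq_true h]
    rfl
  · rw [if_neg h, decide_eq_false h]
    rfl

theorem rsel_comp (hR : PrimrecRel R) {β : Type} [Primcodable β]
    {f g : β → ℕ} {h : β → List Bool} (hf : Primrec f) (hg : Primrec g) (hh : Primrec h) :
    Primrec fun x => rsel R (f x) (g x) (h x) :=
  (rsel_primrec hR).comp (Primrec.pair (Primrec.pair hf hg) hh)

/-- the string of the list -/
noncomputable def al (S F : Fml → Prop) (R : ℕ → ℕ → Prop) (sW : List Bool) (c i K n : ℕ) :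
    List Bool :=
  aS S n ++
  (List.range K).flatMap fun j => rsel R j i ((List.range (n + 1)).flatMap fun a =>
    cond (isF a) (gsel F (st a) (rsJ (st a) sW (sg3 (st a) sW j c))) [])

theorem strs_axl (W : Fml) (c i K n : ℕ) :
    strs (axl S F R W c i K n) = al S F R (str W) c i K n := by
  unfold axl al
  rw [strs_append, strs_sl']
  congr 1
  unfold strs
  rw [List.flatMap_assoc]
  congr 1
  funext j
  unfold rsel
  by_cases h : R j i
  · rw [if_pos h, if_pos h, List.flatMap_map]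
    exact flat_sl F _ (fun s => rsJ s (str W) (sg3 s (str W) j c))
      (fun φ => str_rfJ W _ φ) n
  · rw [if_neg h, if_neg h]
    rfl

attribute [irreducible] rsel

/-- the code of the list of axioms, followed by the list with the code `c` -/
noncomputable def hh (S F : Fml → Prop) (R : ℕ → ℕ → Prop) (sW : List Bool) (c i K n : ℕ) : ℕ :=
  num (al S F R sW c i K n ++ digits c)

theorem hh_code (W : Fml) (Γ : List Fml) (i K n : ℕ) :
    hh S F R (str W) (code Γ) i K n = code (axl S F R W (code Γ) i K n ++ Γ) := by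
  unfold hh
  rw [← strs_axl]
  unfold code
  rw [digits_num, strs_append]

theorem exists_of_hh {W : Fml} {c i K n : ℕ} {Γ' : List Fml}
    (h : hh S F R (str W) c i K n = code Γ') :
    ∃ Γ, c = code Γ ∧ Γ' = axl S F R W c i K n ++ Γ := by
  unfold hh code at h
  have h1 := num_inj h
  rw [← strs_axl] at h1
  obtain ⟨Γ, h2, h3⟩ := parse h1
  refine ⟨Γ, ?_, h2⟩
  unfold code
  rw [← h3, num_digits]

theorem axI_of_mem {W : Fml} {Γ : List Fml} {i K n : ℕ} {ψ : Fml}
    (h : ψ ∈ axl S F R W (code Γ) i K n ++ Γ) : AxI S F R W Γ i ψ := by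
  rcases List.mem_append.1 h with h | h
  · unfold axl at h
    rcases List.mem_append.1 h with h | h
    · exact Or.inr (Or.inl (of_mem_sl h))
    · rw [List.mem_flatMap] at h
      obtain ⟨j, -, h⟩ := h
      by_cases hR : R j i
      · rw [if_pos hR] at h
        obtain ⟨φ, hφ, rfl⟩ := List.mem_map.1 h
        refine Or.inr (Or.inr ⟨j, hR, φ, of_mem_sl hφ, ?_⟩)
        rw [refl_eq, sg3_eq]
      · rw [if_neg hR] at h
        exact absurd h List.not_mem_nil
  · exact Or.inl h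

theorem mem_of_axI {W : Fml} {Γ : List Fml} {i y : ℕ} {ψ : Fml}
    (hψ : (str ψ).length ≤ y) (h : AxI S F R W Γ i ψ) :
    ψ ∈ axl S F R W (code Γ) i y (Bd y) ++ Γ := by
  rcases h with h | h | ⟨j, hj, φ, hφ, rfl⟩
  · exact List.mem_append_right _ h
  · refine List.mem_append_left _ (List.mem_append_left _ (mem_sl ?_ h))
    exact (gn_le ψ).trans (Bd_mono hψ)
  · have hl := lt_length_refl W Γ j φ
    refine List.mem_append_left _ (List.mem_append_right _ ?_)
    rw [List.mem_flatMap]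
    refine ⟨j, List.mem_range.2 (by omega), ?_⟩
    rw [if_pos hj, List.mem_map]
    refine ⟨φ, mem_sl ((gn_le φ).trans (Bd_mono ?_)) hφ, ?_⟩
    · omega
    · rw [refl_eq, sg3_eq]

theorem prI_iff {W : Fml} {Γ : List Fml} {i k x : ℕ} {φ : Fml} :
    PrI S F R W Γ i k x φ ↔
      PrV (hh S F R (str W) (code Γ) i x (Bd x), k, x, num (str φ)) := by
  constructor
  · rintro ⟨Δ, π, h1, h2, h3, h4⟩
    refine ⟨_, φ, π, hh_code W Γ i x (Bd x), (code_single φ).symm, ?_, h3, h4⟩
    exact isProof_sub (fun ψ hψ hΔ => mem_of_axI ((str_le_strs hψ).trans h4) (h1 ψ hΔ)) h2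
  · rintro ⟨Γ', φ', π, h1, h2, h3, h4, h5⟩
    simp only at h1 h2 h4 h5
    rw [hh_code] at h1
    have h6 := code_inj h1
    rw [← code_single] at h2
    have h7 : φ = φ' := by simpa using code_inj h2
    subst h7
    subst h6
    exact ⟨_, π, fun ψ hψ => axI_of_mem hψ, h3, h4, h5⟩

theorem pRel_iff (c k x : ℕ) : PRel S F R c k x ↔
    ∃ a ∈ List.range (Bd c + 1), ∃ b ∈ List.range (Bd c + 1), ∃ i ∈ List.range (c + 1),
      ∃ e ∈ List.range (c + 1),
      isF a = true ∧ isF b = true ∧ c = num (sg3 (st a) (st b) i e) ∧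
        PrV (hh S F R (st b) e i x (Bd x), k, x, num (st a)) := by
  simp only [List.mem_range]
  constructor
  · rintro ⟨φ, W, i, Γ, h1, h2⟩
    have h3 : strs (φ :: W :: .eq i i :: Γ) = str φ ++ (str W ++ (str (.eq i i) ++ strs Γ)) := rfl
    have hl : (strs (φ :: W :: .eq i i :: Γ)).length ≤ c := by
      rw [h1]
      exact length_le_num _
    have hl1 : (str φ).length ≤ c := (str_le_strs (List.mem_cons_self ..)).trans hl
    have hl2 : (str W).length ≤ c :=
      (str_le_strs (List.mem_cons_of_mem _ (List.mem_cons_self ..))).trans hl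
    refine ⟨gn φ, ?_, gn W, ?_, i, ?_, code Γ, ?_, (isF_iff _).2 ⟨φ, rfl⟩,
      (isF_iff _).2 ⟨W, rfl⟩, ?_, ?_⟩
    · have := (gn_le φ).trans (Bd_mono hl1)
      omega
    · have := (gn_le W).trans (Bd_mono hl2)
      omega
    · have h4 := le_length_varStr i
      have h5 : (str (Fm.eq i i : Fml)).length = 4 + ((varStr i).length + (varStr i).length) := by
        simp [str]; omega
      have h6 : (str (Fm.eq i i : Fml)).length ≤ (strs (φ :: W :: .eq i i :: Γ)).length :=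
        str_le_strs (by simp)
      omega
    · have : code Γ ≤ c := by
        rw [h1]
        unfold code
        rw [h3, ← List.append_assoc, ← List.append_assoc]
        exact le_num_append _ _
      omega
    · rw [st_gn, st_gn, h1, sg3_eq]
      rfl
    · rw [st_gn, st_gn]
      exact prI_iff.1 h2
  · rintro ⟨a, -, b, -, i, -, e, -, ha, hb, hc, h⟩
    obtain ⟨φ, rfl⟩ := (isF_iff a).1 ha
    obtain ⟨W, rfl⟩ := (isF_iff b).1 hb
    rw [st_gn, st_gn] at hc h
    obtain ⟨Γ', φ', π, h1, h2⟩ := id h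
    simp only at h1
    obtain ⟨Γ, rfl, -⟩ := exists_of_hh h1
    refine ⟨φ, W, i, Γ, ?_, prI_iff.2 h⟩
    rw [hc, sg3_eq]
    rfl

theorem tRel_iff (V : Fml) (i c y d : ℕ) : TRel S F R V i c y d ↔
    PrV (hh S F R (str V) c i y (Bd y), y, y, d) := by
  constructor
  · rintro ⟨Γ, φ, rfl, rfl, Δ, h1, π, h2, h3⟩
    refine ⟨_, φ, π, hh_code V Γ i y (Bd y), rfl, ?_, ?_, h3⟩
    · exact isProof_sub (fun ψ hψ hΔ => mem_of_axI ((str_le_strs hψ).trans h3) (h1 ψ hΔ)) h2
    · intro ψ hψ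
      have h4 : sz ψ ≤ y := (str_le_strs hψ).trans h3
      exact Vlt.mono h4 (vlt_sz ψ)
  · rintro ⟨Γ', φ, π, h1, h2, h3, h4, h5⟩
    simp only at h1 h2 h4 h5
    obtain ⟨Γ, rfl, rfl⟩ := exists_of_hh h1
    exact ⟨Γ, φ, rfl, h2, _, fun ψ hψ => axI_of_mem hψ, π, h3, h5⟩

/-! ### primitive recursion -/

/-- the parameters `((sW, c), (i, (K, n)))` -/
abbrev Prm : Type := (List Bool × ℕ) × (ℕ × (ℕ × ℕ))

theorem al_primrec (hS : PrimrecPred (SC S)) (hF : PrimrecPred (SC F)) (hR : PrimrecRel R) :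
    Primrec fun p : Prm => al S F R p.1.1 p.1.2 p.2.1 p.2.2.1 p.2.2.2 := by
  unfold al
  have e1 : Primrec fun p : Prm => List.range (p.2.2.2 + 1) :=
    Primrec.list_range.comp (Primrec.succ.comp (Primrec.snd.comp (Primrec.snd.comp Primrec.snd)))
  have e2 : Primrec fun p : Prm => List.range p.2.2.1 :=
    Primrec.list_range.comp (Primrec.fst.comp (Primrec.snd.comp Primrec.snd))
  refine Primrec.list_append.comp
    ((aS_primrec hS).comp (Primrec.snd.comp (Primrec.snd.comp Primrec.snd))) ?_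
  refine Primrec.list_flatMap e2 ?_
  have f1 : Primrec fun r : (Prm × ℕ) × ℕ => st r.2 := st_primrec.comp Primrec.snd
  have f2 : Primrec fun r : (Prm × ℕ) × ℕ => r.1.1.1.1 :=
    Primrec.fst.comp (Primrec.fst.comp (Primrec.fst.comp Primrec.fst))
  have f3 : Primrec fun r : (Prm × ℕ) × ℕ => r.1.1.1.2 :=
    Primrec.snd.comp (Primrec.fst.comp (Primrec.fst.comp Primrec.fst))
  have f4 : Primrec fun r : (Prm × ℕ) × ℕ => r.1.2 := Primrec.snd.comp Primrec.fst
  have f5 : Primrec fun r : (Prm × ℕ) × ℕ =>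
      rsJ (st r.2) r.1.1.1.1 (sg3 (st r.2) r.1.1.1.1 r.1.2 r.1.1.1.2) :=
    rsJ_comp f1 f2 (sg3_comp f1 f2 f4 f3)
  have f6 : Primrec fun r : (Prm × ℕ) × ℕ => isF r.2 := isF_primrec.comp Primrec.snd
  have f7 : Primrec fun r : (Prm × ℕ) × ℕ =>
      cond (isF r.2) (gsel F (st r.2)
        (rsJ (st r.2) r.1.1.1.1 (sg3 (st r.2) r.1.1.1.1 r.1.2 r.1.1.1.2))) [] :=
    Primrec.cond f6 (gsel_comp hF f1 f5) (Primrec.const [])
  have f8 : Primrec fun q : Prm × ℕ => List.range (q.1.2.2.2 + 1) := e1.comp Primrec.fst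
  have f9 : Primrec fun q : Prm × ℕ => (List.range (q.1.2.2.2 + 1)).flatMap fun a =>
      cond (isF a) (gsel F (st a)
        (rsJ (st a) q.1.1.1 (sg3 (st a) q.1.1.1 q.2 q.1.1.2))) [] :=
    Primrec.list_flatMap f8 f7.to₂
  have f10 : Primrec fun q : Prm × ℕ => q.1.2.1 :=
    Primrec.fst.comp (Primrec.snd.comp Primrec.fst)
  exact (rsel_comp hR Primrec.snd f10 f9).to₂

theorem hh_primrec (hS : PrimrecPred (SC S)) (hF : PrimrecPred (SC F)) (hR : PrimrecRel R) :
    Primrec fun p : Prm => hh S F R p.1.1 p.1.2 p.2.1 p.2.2.1 p.2.2.2 := by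
  unfold hh
  exact num_primrec.comp (Primrec.list_append.comp (al_primrec hS hF hR)
    (digits_primrec.comp (Primrec.snd.comp Primrec.fst)))

attribute [irreducible] hh

theorem tRel_primrec (hS : PrimrecPred (SC S)) (hF : PrimrecPred (SC F)) (hR : PrimrecRel R)
    (V : Fml) (i : ℕ) :
    PrimrecPred fun x : ℕ × ℕ × ℕ => TRel S F R V i x.1 x.2.1 x.2.2 := by
  have e1 : Primrec fun x : ℕ × ℕ × ℕ => x.2.1 := Primrec.fst.comp Primrec.snd
  have h1 : Primrec fun x : ℕ × ℕ × ℕ =>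
      ((hh S F R (str V) x.1 i x.2.1 (Bd x.2.1), x.2.1, x.2.1, x.2.2) : ℕ × ℕ × ℕ × ℕ) := by
    refine Primrec.pair ?_ (Primrec.pair e1 (Primrec.pair e1 (Primrec.snd.comp Primrec.snd)))
    exact (hh_primrec hS hF hR).comp (Primrec.pair (Primrec.pair (Primrec.const _) Primrec.fst)
      (Primrec.pair (Primrec.const _) (Primrec.pair e1 (Bd_primrec.comp e1))))
  exact (prV_primrec.comp h1).of_eq fun x => (tRel_iff V i _ _ _).symm

/-- the matrix of the definition -/
def Mx (S F : Fml → Prop) (R : ℕ → ℕ → Prop) (a b i e c k x : ℕ) : Prop :=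
  isF a = true ∧ isF b = true ∧ c = num (sg3 (st a) (st b) i e) ∧
        PrV (hh S F R (st b) e i x (Bd x), k, x, num (st a))

theorem mx_primrec (hS : PrimrecPred (SC S)) (hF : PrimrecPred (SC F)) (hR : PrimrecRel R) :
    PrimrecPred fun q : (ℕ × ℕ) × ((ℕ × ℕ) × (ℕ × ℕ × ℕ)) =>
      Mx S F R q.1.1 q.1.2 q.2.1.1 q.2.1.2 q.2.2.1 q.2.2.2.1 q.2.2.2.2 := by
  have ga : Primrec fun q : (ℕ × ℕ) × ((ℕ × ℕ) × (ℕ × ℕ × ℕ)) => q.1.1 :=
    Primrec.fst.comp Primrec.fst
  have gb : Primrec fun q : (ℕ × ℕ) × ((ℕ × ℕ) × (ℕ × ℕ × ℕ)) => q.1.2 :=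
    Primrec.snd.comp Primrec.fst
  have gi : Primrec fun q : (ℕ × ℕ) × ((ℕ × ℕ) × (ℕ × ℕ × ℕ)) => q.2.1.1 :=
    Primrec.fst.comp (Primrec.fst.comp Primrec.snd)
  have ge : Primrec fun q : (ℕ × ℕ) × ((ℕ × ℕ) × (ℕ × ℕ × ℕ)) => q.2.1.2 :=
    Primrec.snd.comp (Primrec.fst.comp Primrec.snd)
  have gx : Primrec fun q : (ℕ × ℕ) × ((ℕ × ℕ) × (ℕ × ℕ × ℕ)) => q.2.2 :=
    Primrec.snd.comp Primrec.snd
  have gc : Primrec fun q : (ℕ × ℕ) × ((ℕ × ℕ) × (ℕ × ℕ × ℕ)) => q.2.2.1 := Primrec.fst.comp gx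
  have gk : Primrec fun q : (ℕ × ℕ) × ((ℕ × ℕ) × (ℕ × ℕ × ℕ)) => q.2.2.2.1 :=
    Primrec.fst.comp (Primrec.snd.comp gx)
  have gy : Primrec fun q : (ℕ × ℕ) × ((ℕ × ℕ) × (ℕ × ℕ × ℕ)) => q.2.2.2.2 :=
    Primrec.snd.comp (Primrec.snd.comp gx)
  have k1 : PrimrecPred fun q : (ℕ × ℕ) × ((ℕ × ℕ) × (ℕ × ℕ × ℕ)) => isF q.1.1 = true :=
    Primrec.eq.comp (isF_primrec.comp ga) (Primrec.const true)
  have k2 : PrimrecPred fun q : (ℕ × ℕ) × ((ℕ × ℕ) × (ℕ × ℕ × ℕ)) => isF q.1.2 = true :=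
    Primrec.eq.comp (isF_primrec.comp gb) (Primrec.const true)
  have k3 : PrimrecPred fun q : (ℕ × ℕ) × ((ℕ × ℕ) × (ℕ × ℕ × ℕ)) =>
      q.2.2.1 = num (sg3 (st q.1.1) (st q.1.2) q.2.1.1 q.2.1.2) :=
    Primrec.eq.comp gc (num_primrec.comp (sg3_comp (st_primrec.comp ga) (st_primrec.comp gb) gi ge))
  have k4 : PrimrecPred fun q : (ℕ × ℕ) × ((ℕ × ℕ) × (ℕ × ℕ × ℕ)) =>
      PrV (hh S F R (st q.1.2) q.2.1.2 q.2.1.1 q.2.2.2.2 (Bd q.2.2.2.2), q.2.2.2.1, q.2.2.2.2,
        num (st q.1.1)) := by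
    refine prV_primrec.comp (Primrec.pair ?_ (Primrec.pair gk (Primrec.pair gy
      (num_primrec.comp (st_primrec.comp ga)))))
    exact (hh_primrec hS hF hR).comp (Primrec.pair (Primrec.pair (st_primrec.comp gb) ge)
      (Primrec.pair gi (Primrec.pair gy (Bd_primrec.comp gy))))
  exact k1.and (k2.and (k3.and k4))

attribute [irreducible] Mx

theorem pRel_primrec (hS : PrimrecPred (SC S)) (hF : PrimrecPred (SC F)) (hR : PrimrecRel R) :
    PrimrecPred fun x : ℕ × ℕ × ℕ => PRel S F R x.1 x.2.1 x.2.2 := by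
  have k5 := mx_primrec hS hF hR
  -- the quantifier over `e`
  have k6 : PrimrecRel fun (e : ℕ) (r : (ℕ × ℕ) × (ℕ × (ℕ × ℕ × ℕ))) =>
      Mx S F R r.1.1 r.1.2 r.2.1 e r.2.2.1 r.2.2.2.1 r.2.2.2.2 :=
    k5.comp (f := fun p : ℕ × ((ℕ × ℕ) × (ℕ × (ℕ × ℕ × ℕ))) =>
      (p.2.1, ((p.2.2.1, p.1), p.2.2.2)))
      (Primrec.pair (Primrec.fst.comp Primrec.snd) (Primrec.pair (Primrec.pair
        (Primrec.fst.comp (Primrec.snd.comp Primrec.snd)) Primrec.fst)
          (Primrec.snd.comp (Primrec.snd.comp Primrec.snd))))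
  have k7 : PrimrecPred fun r : (ℕ × ℕ) × (ℕ × (ℕ × ℕ × ℕ)) => ∃ e ∈ List.range (r.2.2.1 + 1),
      Mx S F R r.1.1 r.1.2 r.2.1 e r.2.2.1 r.2.2.2.1 r.2.2.2.2 :=
    (PrimrecRel.exists_mem_list k6).comp (Primrec.list_range.comp (Primrec.succ.comp
      (Primrec.fst.comp (Primrec.snd.comp Primrec.snd)))) Primrec.id
  -- the quantifier over `i`
  have k8 : PrimrecRel fun (i : ℕ) (r : (ℕ × ℕ) × (ℕ × ℕ × ℕ)) =>
      ∃ e ∈ List.range (r.2.1 + 1), Mx S F R r.1.1 r.1.2 i e r.2.1 r.2.2.1 r.2.2.2 :=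
    k7.comp (f := fun p : ℕ × ((ℕ × ℕ) × (ℕ × ℕ × ℕ)) => (p.2.1, (p.1, p.2.2)))
      (Primrec.pair (Primrec.fst.comp Primrec.snd) (Primrec.pair Primrec.fst
        (Primrec.snd.comp Primrec.snd)))
  have k9 : PrimrecPred fun r : (ℕ × ℕ) × (ℕ × ℕ × ℕ) => ∃ i ∈ List.range (r.2.1 + 1),
      ∃ e ∈ List.range (r.2.1 + 1), Mx S F R r.1.1 r.1.2 i e r.2.1 r.2.2.1 r.2.2.2 :=
    (PrimrecRel.exists_mem_list k8).comp (Primrec.list_range.comp (Primrec.succ.comp
      (Primrec.fst.comp Primrec.snd))) Primrec.id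
  -- the quantifier over `b`
  have k10 : PrimrecRel fun (b : ℕ) (r : ℕ × (ℕ × ℕ × ℕ)) => ∃ i ∈ List.range (r.2.1 + 1),
      ∃ e ∈ List.range (r.2.1 + 1), Mx S F R r.1 b i e r.2.1 r.2.2.1 r.2.2.2 :=
    k9.comp (f := fun p : ℕ × (ℕ × (ℕ × ℕ × ℕ)) => ((p.2.1, p.1), p.2.2))
      (Primrec.pair (Primrec.pair (Primrec.fst.comp Primrec.snd) Primrec.fst)
        (Primrec.snd.comp Primrec.snd))
  have k11 : PrimrecPred fun r : ℕ × (ℕ × ℕ × ℕ) => ∃ b ∈ List.range (Bd r.2.1 + 1),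
      ∃ i ∈ List.range (r.2.1 + 1),
      ∃ e ∈ List.range (r.2.1 + 1), Mx S F R r.1 b i e r.2.1 r.2.2.1 r.2.2.2 :=
    (PrimrecRel.exists_mem_list k10).comp (Primrec.list_range.comp (Primrec.succ.comp
      (Bd_primrec.comp (Primrec.fst.comp Primrec.snd)))) Primrec.id
  -- the quantifier over `a`
  have k12 : PrimrecPred fun x : ℕ × ℕ × ℕ => ∃ a ∈ List.range (Bd x.1 + 1),
      ∃ b ∈ List.range (Bd x.1 + 1), ∃ i ∈ List.range (x.1 + 1),
      ∃ e ∈ List.range (x.1 + 1), Mx S F R a b i e x.1 x.2.1 x.2.2 :=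
    (PrimrecRel.exists_mem_list (R := fun (a : ℕ) (x : ℕ × ℕ × ℕ) =>
      ∃ b ∈ List.range (Bd x.1 + 1), ∃ i ∈ List.range (x.1 + 1),
      ∃ e ∈ List.range (x.1 + 1), Mx S F R a b i e x.1 x.2.1 x.2.2) k11).comp
      (Primrec.list_range.comp (Primrec.succ.comp (Bd_primrec.comp Primrec.fst))) Primrec.id
  refine k12.of_eq fun x => ?_
  rw [pRel_iff]
  unfold Mx
  rfl

/-- There is a numeration of the first relation. -/
theorem exists_V (hS : PrimrecPred (SC S)) (hF : PrimrecPred (SC F)) (hR : PrimrecRel R) :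
    ∃ V, Num (PRel S F R) V := by
  obtain ⟨hd, hc⟩ := pRel_primrec hS hF hR
  exact exists_num ⟨hd, hc.to_comp⟩

/-- There is a numeration of the second relation. -/
theorem exists_P (hS : PrimrecPred (SC S)) (hF : PrimrecPred (SC F)) (hR : PrimrecRel R)
    (V : Fml) (i : ℕ) : ∃ P, Num (TRel S F R V i) P := by
  obtain ⟨hd, hc⟩ := tRel_primrec hS hF hR V i
  exact exists_num ⟨hd, hc.to_comp⟩

end Pool.Agent.T9h6.BF
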