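import Pool.Agent.T9h6.BE.Defs

/-!
# Iterated reflection for proofs with few variables: definitions
-/

set_option autoImplicit false

namespace Pool.Agent.T9h6.BF

open Pool.Agent.TH672 (Fm)
open Pool.Agent.TH636.BC
open Pool.Agent.T9h6.BD (instD)

/-- The formula `J (v₃)`: `v₃` is a number, and there are nodes `v₃₃` and `v₃₅` whose colour `v₃₇` is
not less than `v₃`. -/
def J : Fml :=
  .and (nat 3) (.ex 33 (.ex 35 (.ex 37 (.and (col 33 35 37) (.neg (lt 37 3))))))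

/-- The axiom of reflection for the theory with the index `i`: if for some number `k` with `J (k)`
and some number `x` with `x ≠ x + 1` the formula `W` is true of the code of the list
`φ :: W :: (vᵢ = vᵢ) :: Γ`, of `k` and of `x`, then `φ`. -/
def refl (W : Fml) (Γ : List Fml) (i : ℕ) (φ : Fml) : Fml :=
  .imp (.ex 3 (.and J (.ex 4 (.and (.neg (.succ 4 4))
    (instD 2 (strs (φ :: W :: .eq i i :: Γ)) W))))) φ

/-- `ψ` is an axiom of the theory `T_i (Γ)`: it belongs to `Γ` or to `S`, or it is, for some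
`j ≺ i` and some `φ` in `F`, the axiom `refl W Γ j φ`. -/
def AxI (S F : Fml → Prop) (R : ℕ → ℕ → Prop) (W : Fml) (Γ : List Fml) (i : ℕ) (ψ : Fml) : Prop :=
  ψ ∈ Γ ∨ S ψ ∨ ∃ j, R j i ∧ ∃ φ, F φ ∧ ψ = refl W Γ j φ

/-- `T_i (Γ)` has a proof of `φ` of length at most `x` in which only the variables
`0`, ..., `k - 1` occur (free or bound). -/
def PrI (S F : Fml → Prop) (R : ℕ → ℕ → Prop) (W : Fml) (Γ : List Fml) (i k x : ℕ) (φ : Fml) :
    Prop :=
  ∃ Δ π : List Fml, (∀ ψ ∈ Δ, AxI S F R W Γ i ψ) ∧ IsProof Δ (φ :: π) ∧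
    (∀ ψ ∈ φ :: π, Vlt k ψ) ∧ (strs (φ :: π)).length ≤ x

/-- `c` is the code of a list `φ :: W :: (vᵢ = vᵢ) :: Γ`, and `T_i (Γ)` has a proof of `φ` of length
at most `x` in which only the variables `0`, ..., `k - 1` occur. -/
def PRel (S F : Fml → Prop) (R : ℕ → ℕ → Prop) (c k x : ℕ) : Prop :=
  ∃ (φ W : Fml) (i : ℕ) (Γ : List Fml), c = code (φ :: W :: .eq i i :: Γ) ∧
    PrI S F R W Γ i k x φ

/-- `T_i (Γ) ⊢^y φ`. -/
def ProvesI (S F : Fml → Prop) (R : ℕ → ℕ → Prop) (V : Fml) (i : ℕ) (Γ : List Fml) (y : ℕ)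
    (φ : Fml) : Prop :=
  ∃ Δ : List Fml, (∀ ψ ∈ Δ, AxI S F R V Γ i ψ) ∧ Proves Δ y φ

/-- `c` is the code of a list `Γ` of formulas, `d` is the code of a formula `φ`, and
`T_i (Γ) ⊢^y φ`. -/
def TRel (S F : Fml → Prop) (R : ℕ → ℕ → Prop) (V : Fml) (i c y d : ℕ) : Prop :=
  ∃ (Γ : List Fml) (φ : Fml), c = code Γ ∧ d = code [φ] ∧ ProvesI S F R V i Γ y φ

end Pool.Agent.T9h6.BF
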