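import Pool.Agent.T9h6.BF.Cst
import Pool.Agent.T9h6.BC.Cons

/-!
# Consistency of the theory with the iterated reflection axioms
-/

set_option autoImplicit false

namespace Pool.Agent.T9h6.BF

open Pool.Agent.TH672 (Fm Str)
open Pool.Agent.TH636.BC
open Pool.Agent.TH554.J1548 (str_le_strs)
open Pool.Agent.TH197.J1545 (code_inj)
open Pool.Agent.T9h6.BC (Num ok_zero isProof_sub Vlt.mono vlt_sz sz AxS2)
open Pool.Agent.T9h6.BD (RelTrue)

/-- The theory `T_i` is consistent for `Γ = Ax P`. -/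
theorem consI (hSd : SoundS) (hA : AxS2) {S F : Fml → Prop} {R : ℕ → ℕ → Prop}
    (hS : ∀ ψ, S ψ → RelTrue ψ) (hR : WellFounded R) {V P : Fml} {i : ℕ}
    (hV : Num (PRel S F R) V) (hP : Num (TRel S F R V i) P) :
    ∀ y, ¬ ProvesI S F R V i (Ax P) y Fm.bot := by
  intro y
  induction y using Nat.strong_induction_on with
  | _ y ih =>
    rintro ⟨Δ, hΔ, π, h1, h2⟩
    have hax := hA P hP.arith hP.free y (fun y' hy' => by
      refine hP.neg _ _ _ ?_
      rintro ⟨Γ, φ, e1, e2, h3⟩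
      have e3 : φ = Fm.bot := by simpa using (code_inj e2).symm
      rw [← code_inj e1, e3] at h3
      exact ih y' hy' h3)
    have hvl : ∀ φ ∈ Fm.bot :: π, Vlt y φ := fun φ hφ => by
      have h3 : sz φ ≤ y := (str_le_strs hφ).trans h2
      exact Vlt.mono h3 (vlt_sz φ)
    have h6 := hSd y Δ (Fm.bot :: π) h1 hvl
      (fun ψ hψ hψv => tr1_axI hSd hS hR hV hax i ψ (hΔ ψ hψ) hψv) Fm.bot (List.mem_cons_self ..)
    exact h6 _ (ok_zero y)

end Pool.Agent.T9h6.BF
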